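import Pool.Agent.Y6.Stm

set_option autoImplicit false

/-!
# Random sets of modes have few quadruples, almost surely
-/

namespace Pool.Agent.Y474.NS

open MeasureTheory Pool.Agent.Y6
open scoped ENNReal

/-! ### Combinatorics -/

/-- a greedy independent set -/
theorem exists_indep {α : Type*} [DecidableEq α] (conf : α → α → Prop)
    [∀ a, DecidablePred (conf a)] (hr : ∀ a, conf a a) (hs : ∀ a b, conf a b → conf b a) (D : ℕ) :
    ∀ (m : ℕ) (T : Finset α), T.card ≤ m → (∀ a ∈ T, (T.filter (conf a)).card ≤ D) →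
      ∃ R ⊆ T, (∀ a ∈ R, ∀ b ∈ R, a ≠ b → ¬ conf a b) ∧ T.card ≤ D * R.card := by
  intro m
  induction m with
  | zero =>
    intro T hT _
    refine ⟨∅, Finset.empty_subset _, by simp, ?_⟩
    simpa using hT
  | succ m ih =>
    intro T hT hD
    rcases T.eq_empty_or_nonempty with h | ⟨a, ha⟩
    · exact ⟨∅, Finset.empty_subset _, by simp, by simp [h]⟩
    · set T' := T.filter (fun b => ¬ conf a b) with hT'
      have hsub : T' ⊆ T := Finset.filter_subset _ _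
      have hlt : T'.card < T.card := by
        apply Finset.card_lt_card
        refine ⟨hsub, fun h => ?_⟩
        have := h ha
        rw [hT', Finset.mem_filter] at this
        exact this.2 (hr a)
      obtain ⟨R, hR, hR1, hR2⟩ := ih T' (by omega) (by
        intro b hb
        refine le_trans (Finset.card_le_card ?_) (hD b (hsub hb))
        exact Finset.filter_subset_filter _ hsub)
      have haR : a ∉ R := by
        intro h
        have := hR h
        rw [hT', Finset.mem_filter] at this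
        exact this.2 (hr a)
      refine ⟨insert a R, ?_, ?_, ?_⟩
      · intro b hb
        rcases Finset.mem_insert.1 hb with h | h
        · rw [h]; exact ha
        · exact hsub (hR h)
      · intro b hb c hc hbc
        rcases Finset.mem_insert.1 hb with h | h
        · rcases Finset.mem_insert.1 hc with h' | h'
          · exact absurd (h.trans h'.symm) hbc
          · rw [h]
            have := hR h'
            rw [hT', Finset.mem_filter] at this
            exact this.2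
        · rcases Finset.mem_insert.1 hc with h' | h'
          · rw [h']
            have := hR h
            rw [hT', Finset.mem_filter] at this
            exact fun hh => this.2 (hs _ _ hh)
          · exact hR1 b h c h' hbc
      · rw [Finset.card_insert_of_notMem haR]
        have h1 := Finset.card_filter_add_card_filter_not (s := T) (conf a)
        have h2 := hD a ha
        have h3 : T'.card = (T.filter (fun b => ¬ conf a b)).card := rfl
        nlinarith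

theorem sz_le_iff (k : K) (N : ℕ) : sz k ≤ N ↔ ∀ i, (k i).natAbs ≤ N := by
  unfold sz
  rw [Finset.sup_le_iff]
  simp

theorem natAbs_le_sz (k : K) (i : Fin 3) : (k i).natAbs ≤ sz k := (sz_le_iff k _).1 le_rfl i

theorem sz_tri (l x : K) : sz x ≤ sz (l + x) + sz l := by
  rw [sz_le_iff]
  intro i
  have h1 := natAbs_le_sz (l + x) i
  have h2 := natAbs_le_sz l i
  have h3 : (l + x) i = l i + x i := rfl
  rw [h3] at h1
  omega

theorem sz_bx {j : ℕ} {l : K} (h : l ∈ bx j) : sz l ≤ 2 ^ (j + 1) := by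
  rw [sz_le_iff]
  intro i
  unfold bx at h
  rw [Fintype.mem_piFinset] at h
  have := h i
  rw [Finset.mem_Ico] at this
  have h2 : ((2 ^ (j + 1) : ℕ) : ℤ) = 2 ^ (j + 1) := by push_cast; rfl
  omega

theorem card_bx (j : ℕ) : (bx j).card = 8 * (2 ^ j) ^ 3 := by
  unfold bx
  rw [Fintype.card_piFinset]
  have h : (Finset.Ico (0 : ℤ) (2 ^ (j + 1))).card = 2 ^ (j + 1) := by
    rw [Int.card_Ico, sub_zero, show (2 : ℤ) ^ (j + 1) = ((2 ^ (j + 1) : ℕ) : ℤ) by push_cast; rfl,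
      Int.toNat_natCast]
  simp only [h, Finset.prod_const, Finset.card_univ, Fintype.card_fin]
  ring

open Classical in
/-- the good points -/
noncomputable def Gd (j : ℕ) {n : ℕ} (x : Fin n → K) : Finset K :=
  (bx j).filter (fun l => (∀ i, 2 ^ j ≤ sz (l + x i)) ∧
    ∀ i i', i ≠ i' → (l + x i) + (l + x i') ≠ 0)

/-- conflict -/
def conf {n : ℕ} (x : Fin n → K) (l l' : K) : Prop :=
  l = l' ∨ ∃ i i', l' + x i' = l + x i ∨ l' + x i' = -(l + x i)

open Classical in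
/-- independent families of good points -/
noncomputable def FR (j : ℕ) {n : ℕ} (x : Fin n → K) (r : ℕ) : Finset (Finset K) :=
  (Finset.powersetCard r (Gd j x)).filter (fun R => ∀ l ∈ R, ∀ l' ∈ R, l ≠ l' → ¬ conf x l l')

theorem claimA (Q : Set K) (j : ℕ) {n : ℕ} (hn : 1 ≤ n) (x : Fin n → K) (r : ℕ)
    (h : n ^ 2 + (2 * n ^ 2) * r ≤ cnt Q j x) :
    ∃ R ∈ FR j x r, ∀ l ∈ R, ∀ i, l + x i ∈ Q := by
  classical
  set T := (Gd j x).filter (fun l => ∀ i, l + x i ∈ Q) with hT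
  set P := (bx j).filter (fun l => ∀ i, l + x i ∈ Q ∧ 2 ^ j ≤ sz (l + x i)) with hP
  have hcnt : cnt Q j x = P.card := by
    unfold cnt
    rw [← Set.ncard_coe_finset]
    congr 1
    ext l
    simp [hP]
  set Bad := (Finset.univ : Finset (Fin n × Fin n)).biUnion (fun p =>
    (bx j).filter (fun l => (l + x p.1) + (l + x p.2) = 0)) with hBad
  have hBadc : Bad.card ≤ n ^ 2 := by
    have := Finset.card_biUnion_le_card_mul (Finset.univ : Finset (Fin n × Fin n)) (fun p =>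
      (bx j).filter (fun l => (l + x p.1) + (l + x p.2) = 0)) 1 (by
      intro p _
      rw [Finset.card_le_one]
      intro a ha b hb
      rw [Finset.mem_filter] at ha hb
      funext i
      have h1 := congrFun ha.2 i
      have h2 := congrFun hb.2 i
      simp only [Pi.add_apply, Pi.zero_apply] at h1 h2
      omega)
    refine this.trans ?_
    simp [sq]
  have hsub : P ⊆ T ∪ Bad := by
    intro l hl
    rw [hP, Finset.mem_filter] at hl
    rw [Finset.mem_union]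
    by_cases hb : ∀ i i', i ≠ i' → (l + x i) + (l + x i') ≠ 0
    · left
      rw [hT, Finset.mem_filter, Gd, Finset.mem_filter]
      exact ⟨⟨hl.1, fun i => (hl.2 i).2, hb⟩, fun i => (hl.2 i).1⟩
    · right
      push Not at hb
      obtain ⟨i, i', _, h0⟩ := hb
      rw [hBad, Finset.mem_biUnion]
      exact ⟨(i, i'), Finset.mem_univ _, Finset.mem_filter.2 ⟨hl.1, h0⟩⟩
  have hTc : (2 * n ^ 2) * r ≤ T.card := by
    have h1 := (Finset.card_le_card hsub).trans (Finset.card_union_le _ _)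
    omega
  obtain ⟨R0, hR0, hR1, hR2⟩ := exists_indep (conf x) (fun a => Or.inl rfl) (by
    rintro a b (h | ⟨i, i', h | h⟩)
    · exact Or.inl h.symm
    · exact Or.inr ⟨i', i, Or.inl h.symm⟩
    · refine Or.inr ⟨i', i, Or.inr ?_⟩
      rw [h, neg_neg]) (2 * n ^ 2) T.card T le_rfl (by
    intro a _
    have hs1 : T.filter (conf x a) ⊆ (Finset.univ : Finset (Fin n × Fin n)).biUnion (fun p =>
        ({a + x p.1 - x p.2, -(a + x p.1) - x p.2} : Finset K)) := by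
      intro b hb
      rw [Finset.mem_filter] at hb
      rw [Finset.mem_biUnion]
      rcases hb.2 with h | ⟨i, i', h | h⟩
      · refine ⟨(⟨0, hn⟩, ⟨0, hn⟩), Finset.mem_univ _, ?_⟩
        rw [Finset.mem_insert]; left
        rw [← h]; simp
      · refine ⟨(i, i'), Finset.mem_univ _, ?_⟩
        rw [Finset.mem_insert]; left
        rw [← h]; simp
      · refine ⟨(i, i'), Finset.mem_univ _, ?_⟩
        rw [Finset.mem_insert, Finset.mem_singleton]; right
        rw [← h]; simp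
    refine (Finset.card_le_card hs1).trans ?_
    have := Finset.card_biUnion_le_card_mul (Finset.univ : Finset (Fin n × Fin n)) (fun p =>
        ({a + x p.1 - x p.2, -(a + x p.1) - x p.2} : Finset K)) 2 (fun p _ => Finset.card_le_two)
    refine this.trans ?_
    simp [sq]
    ring_nf
    exact le_rfl)
  have hR3 : r ≤ R0.card := by
    have h1 := hTc.trans hR2
    exact Nat.le_of_mul_le_mul_left h1 (by positivity)
  obtain ⟨R, hR, hRc⟩ := Finset.exists_subset_card_eq hR3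
  refine ⟨R, ?_, ?_⟩
  · rw [FR, Finset.mem_filter, Finset.mem_powersetCard]
    refine ⟨⟨?_, hRc⟩, ?_⟩
    · intro l hl
      have := hR0 (hR hl)
      rw [hT, Finset.mem_filter] at this
      exact this.1
    · intro l hl l' hl' hne
      exact hR1 l (hR hl) l' (hR hl') hne
  · intro l hl
    have := hR0 (hR hl)
    rw [hT, Finset.mem_filter] at this
    exact this.2


/-! ### Size bounds -/

/-- `max 1 (|x| / (4 2^j))` -/
noncomputable def mm (j : ℕ) (k : K) : ℝ := max 1 ((sz k : ℝ) / (4 * 2 ^ j))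

theorem one_le_mm (j : ℕ) (k : K) : 1 ≤ mm j k := le_max_left _ _

theorem sz_ge {j : ℕ} {l x : K} (hl : l ∈ bx j) (h : 2 ^ j ≤ sz (l + x)) :
    (2 : ℝ) ^ j * mm j x ≤ sz (l + x) := by
  have h1 : (2 : ℝ) ^ j ≤ sz (l + x) := by exact_mod_cast h
  have h2 := sz_tri l x
  have h3 := sz_bx hl
  have h4 : (sz x : ℝ) ≤ sz (l + x) + 2 * 2 ^ j := by
    have : sz x ≤ sz (l + x) + 2 * 2 ^ j := by
      have e : 2 ^ (j + 1) = 2 * 2 ^ j := by ring
      omega
    exact_mod_cast this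
  have h5 : (0 : ℝ) < 2 ^ j := by positivity
  unfold mm
  rw [mul_max_of_nonneg _ _ h5.le]
  apply max_le
  · linarith
  · have e : (2 : ℝ) ^ j * ((sz x : ℝ) / (4 * 2 ^ j)) = sz x / 4 := by field_simp
    rw [e]
    linarith

/-- the bound for a single mode -/
noncomputable def cc (C : ℝ) (j : ℕ) (k : K) : ℝ :=
  C * ((2 : ℝ) ^ j) ^ (-(1 / 3) : ℝ) * (mm j k) ^ (-(1 / 3) : ℝ)

theorem cc_nonneg {C : ℝ} (hC : 1 ≤ C) (j : ℕ) (k : K) : 0 ≤ cc C j k := by
  have := one_le_mm j k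
  unfold cc
  positivity

theorem prob_le {C C0 : ℝ} (hC : 1 ≤ C) (hC0 : C0 ≤ C) {j : ℕ} {l x : K} (hl : l ∈ bx j)
    (h : 2 ^ j ≤ sz (l + x)) : C0 * (sz (l + x) : ℝ) ^ (-(1 / 3) : ℝ) ≤ cc C j x := by
  have h1 := sz_ge hl h
  have h2 := one_le_mm j x
  have h5 : (0 : ℝ) < 2 ^ j := by positivity
  have h6 : (0 : ℝ) < 2 ^ j * mm j x := by positivity
  have h7 : (sz (l + x) : ℝ) ^ (-(1 / 3) : ℝ) ≤ (2 ^ j * mm j x) ^ (-(1 / 3) : ℝ) :=
    Real.rpow_le_rpow_of_nonpos h6 h1 (by norm_num)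
  have h8 : (0 : ℝ) ≤ (sz (l + x) : ℝ) ^ (-(1 / 3) : ℝ) := by positivity
  unfold cc
  rw [Real.mul_rpow h5.le (by linarith)] at h7
  calc C0 * (sz (l + x) : ℝ) ^ (-(1 / 3) : ℝ) ≤ C * (sz (l + x) : ℝ) ^ (-(1 / 3) : ℝ) :=
        mul_le_mul_of_nonneg_right hC0 h8
    _ ≤ C * (((2 : ℝ) ^ j) ^ (-(1 / 3) : ℝ) * mm j x ^ (-(1 / 3) : ℝ)) :=
        mul_le_mul_of_nonneg_left h7 (by linarith)
    _ = _ := by ring

/-! ### Union bound -/

section prob
variable {Ω : Type*} [MeasurableSpace Ω] (μ : Measure Ω) (Q : Ω → Set K)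

theorem claimB {C C0 : ℝ} (hC : 1 ≤ C) (hC0 : C0 ≤ C)
    (hQ : ∀ S : Finset K, (∀ k ∈ S, -k ∉ S) → μ {ω | ∀ k ∈ S, k ∈ Q ω}
      ≤ ∏ k ∈ S, ENNReal.ofReal (C0 * (sz k : ℝ) ^ (-(1 / 3) : ℝ)))
    (j : ℕ) {n : ℕ} (x : Fin n → K) (hx : Function.Injective x) (r : ℕ) (R : Finset K)
    (hR : R ∈ FR j x r) :
    μ {ω | ∀ l ∈ R, ∀ i, l + x i ∈ Q ω} ≤ (∏ i, ENNReal.ofReal (cc C j (x i))) ^ r := by
  classical
  rw [FR, Finset.mem_filter, Finset.mem_powersetCard] at hR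
  obtain ⟨⟨hR1, hR2⟩, hR3⟩ := hR
  have hGd : ∀ l ∈ R, l ∈ bx j ∧ (∀ i, 2 ^ j ≤ sz (l + x i)) ∧
      ∀ i i', i ≠ i' → (l + x i) + (l + x i') ≠ 0 := by
    intro l hl
    have := hR1 hl
    rw [Gd, Finset.mem_filter] at this
    exact this
  set S : Finset K := (R ×ˢ (Finset.univ : Finset (Fin n))).image (fun p => p.1 + x p.2) with hS
  have hinj : Set.InjOn (fun p : K × Fin n => p.1 + x p.2)
      (R ×ˢ (Finset.univ : Finset (Fin n)) : Finset (K × Fin n)) := by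
    rintro ⟨l, i⟩ hp ⟨l', i'⟩ hp' h
    simp only [Finset.coe_product, Finset.coe_univ, Set.mem_prod, Finset.mem_coe, Set.mem_univ,
      and_true] at hp hp'
    simp only at h
    by_cases hll : l = l'
    · subst hll
      have := hx (add_left_cancel h)
      rw [this]
    · exact absurd (Or.inr ⟨i, i', Or.inl h.symm⟩) (hR3 l hp l' hp' hll)
  have hSS : ∀ k ∈ S, -k ∉ S := by
    intro k hk hk'
    rw [hS, Finset.mem_image] at hk hk'
    obtain ⟨⟨l, i⟩, hp, hk1⟩ := hk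
    obtain ⟨⟨l', i'⟩, hp', hk2⟩ := hk'
    simp only [Finset.mem_product, Finset.mem_univ, and_true] at hp hp'
    simp only at hk1 hk2
    by_cases hll : l = l'
    · subst hll
      have hsum : (l + x i) + (l + x i') = 0 := by rw [hk1, hk2]; simp
      by_cases hii : i = i'
      · subst hii
        have h0 : l + x i = 0 := by
          funext a
          have := congrFun hsum a
          simp only [Pi.add_apply, Pi.zero_apply] at this ⊢
          omega
        have h1 := (hGd l hp).2.1 i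
        rw [h0] at h1
        have h2 : sz (0 : K) = 0 := by simp [sz]
        rw [h2] at h1
        have : 0 < 2 ^ j := by positivity
        omega
      · exact (hGd l hp).2.2 i i' hii hsum
    · apply hR3 l hp l' hp' hll
      refine Or.inr ⟨i, i', Or.inr ?_⟩
      rw [hk2, hk1]
  have hset : {ω | ∀ l ∈ R, ∀ i, l + x i ∈ Q ω} = {ω | ∀ k ∈ S, k ∈ Q ω} := by
    ext ω
    constructor
    · intro h k hk
      rw [hS, Finset.mem_image] at hk
      obtain ⟨⟨l, i⟩, hp, hk1⟩ := hk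
      simp only [Finset.mem_product, Finset.mem_univ, and_true] at hp
      rw [← hk1]
      exact h l hp i
    · intro h l hl i
      apply h
      rw [hS, Finset.mem_image]
      exact ⟨(l, i), by simp [hl], rfl⟩
  rw [hset]
  refine (hQ S hSS).trans ?_
  rw [hS, Finset.prod_image hinj, Finset.prod_product]
  rw [← hR2, ← Finset.prod_const]
  refine Finset.prod_le_prod' fun l hl => Finset.prod_le_prod' fun i _ => ?_
  apply ENNReal.ofReal_le_ofReal
  exact prob_le hC hC0 (hGd l hl).1 ((hGd l hl).2.1 i)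

theorem claimC {C C0 : ℝ} (hC : 1 ≤ C) (hC0 : C0 ≤ C)
    (hQ : ∀ S : Finset K, (∀ k ∈ S, -k ∉ S) → μ {ω | ∀ k ∈ S, k ∈ Q ω}
      ≤ ∏ k ∈ S, ENNReal.ofReal (C0 * (sz k : ℝ) ^ (-(1 / 3) : ℝ)))
    (j : ℕ) {n : ℕ} (hn : 1 ≤ n) (x : Fin n → K) (hx : Function.Injective x) (r : ℕ) :
    μ {ω | n ^ 2 + (2 * n ^ 2) * r ≤ cnt (Q ω) j x} ≤
      ENNReal.ofReal (((8 * (2 ^ j) ^ 3 : ℕ) : ℝ) ^ r / r.factorial *
        (∏ i, cc C j (x i)) ^ r) := by
  classical
  have hsub : {ω | n ^ 2 + (2 * n ^ 2) * r ≤ cnt (Q ω) j x} ⊆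
      ⋃ R ∈ FR j x r, {ω | ∀ l ∈ R, ∀ i, l + x i ∈ Q ω} := by
    intro ω hω
    obtain ⟨R, hR, h⟩ := claimA (Q ω) j hn x r hω
    simp only [Set.mem_iUnion]
    exact ⟨R, hR, h⟩
  refine (measure_mono hsub).trans ((measure_biUnion_finset_le _ _).trans ?_)
  refine (Finset.sum_le_sum fun R hR => claimB μ Q hC hC0 hQ j x hx r R hR).trans ?_
  rw [Finset.sum_const, nsmul_eq_mul]
  have hpn : 0 ≤ ∏ i, cc C j (x i) := Finset.prod_nonneg fun i _ => cc_nonneg hC j (x i)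
  have hc1 : (FR j x r).card ≤ (8 * (2 ^ j) ^ 3).choose r := by
    refine (Finset.card_filter_le _ _).trans ?_
    rw [Finset.card_powersetCard]
    apply Nat.choose_le_choose
    refine (Finset.card_filter_le _ _).trans ?_
    rw [card_bx]
  have hc2 : (((FR j x r).card : ℕ) : ℝ) ≤ ((8 * (2 ^ j) ^ 3 : ℕ) : ℝ) ^ r / r.factorial := by
    refine le_trans ?_ (Nat.choose_le_pow_div r (8 * (2 ^ j) ^ 3))
    exact_mod_cast hc1
  have e1 : (∏ i, ENNReal.ofReal (cc C j (x i))) ^ r =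
      ENNReal.ofReal ((∏ i, cc C j (x i)) ^ r) := by
    rw [ENNReal.ofReal_pow hpn, ENNReal.ofReal_prod_of_nonneg (fun i _ => cc_nonneg hC j (x i))]
  rw [e1, ← ENNReal.ofReal_natCast, ← ENNReal.ofReal_mul (by positivity)]
  apply ENNReal.ofReal_le_ofReal
  exact mul_le_mul_of_nonneg_right hc2 (by positivity)

end prob

/-! ### Numerics -/

/-- the summable weight -/
noncomputable def gk (k : K) : ℝ := ((max 1 (sz k : ℝ)) ^ 6)⁻¹

theorem mm_pow (j : ℕ) (k : K) (r : ℕ) (hr : 18 ≤ r) :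
    ((mm j k) ^ (-(1 / 3) : ℝ)) ^ r ≤ (4 * 2 ^ j) ^ 6 * gk k := by
  have h1 := one_le_mm j k
  have h2 : (mm j k) ^ (-(1 / 3) : ℝ) ≤ 1 := Real.rpow_le_one_of_one_le_of_nonpos h1 (by norm_num)
  have h3 : 0 ≤ (mm j k) ^ (-(1 / 3) : ℝ) := by positivity
  have h4 : ((mm j k) ^ (-(1 / 3) : ℝ)) ^ r ≤ ((mm j k) ^ (-(1 / 3) : ℝ)) ^ 18 :=
    pow_le_pow_of_le_one h3 h2 hr
  have h5 : ((mm j k) ^ (-(1 / 3) : ℝ)) ^ 18 = ((mm j k) ^ 6)⁻¹ := by
    rw [← Real.rpow_natCast, ← Real.rpow_mul (by linarith), ← Real.rpow_natCast,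
      ← Real.rpow_neg (by linarith)]
    norm_num
  refine h4.trans ?_
  rw [h5]
  unfold gk
  have hj : (1 : ℝ) ≤ 2 ^ j := one_le_pow₀ (by norm_num)
  have h6 : max 1 (sz k : ℝ) ≤ (4 * 2 ^ j) * mm j k := by
    unfold mm
    rw [mul_max_of_nonneg _ _ (by positivity)]
    apply max_le_max
    · linarith
    · apply le_of_eq; field_simp
  have h7 : 0 < max 1 (sz k : ℝ) := by positivity
  have h8 : (max 1 (sz k : ℝ)) ^ 6 ≤ ((4 * 2 ^ j) * mm j k) ^ 6 := pow_le_pow_left₀ h7.le h6 6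
  rw [mul_pow] at h8
  rw [← div_eq_mul_inv, inv_eq_one_div, div_le_div_iff₀ (by positivity) (by positivity)]
  linarith

theorem claimD {C : ℝ} (hC : 1 ≤ C) (j : ℕ) {n : ℕ} (x : Fin n → K) (r : ℕ) (hr : 18 ≤ r)
    (hr2 : Real.exp 2 * (8 * (2 ^ j) ^ 3 * (C * ((2 : ℝ) ^ j) ^ (-(1 / 3) : ℝ)) ^ n) ≤ r) :
    ((8 * (2 ^ j) ^ 3 : ℕ) : ℝ) ^ r / r.factorial * (∏ i, cc C j (x i)) ^ r ≤
      Real.exp (-r) * (((4 * 2 ^ j) ^ 6) ^ n * ∏ i, gk (x i)) := by
  have hr0 : (0 : ℝ) < r := by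
    have : 0 < r := by omega
    exact_mod_cast this
  -- factorial bound
  have h1 : (r : ℝ) ^ r / r.factorial ≤ Real.exp r := Real.pow_div_factorial_le_exp (r : ℝ) hr0.le r
  have h2 : (1 : ℝ) / r.factorial ≤ (Real.exp 1 / r) ^ r := by
    rw [div_pow, ← Real.exp_nat_mul, mul_one, div_le_div_iff₀ (by positivity) (by positivity)]
    rw [div_le_iff₀ (by positivity)] at h1
    linarith
  set q0 : ℝ := (C * ((2 : ℝ) ^ j) ^ (-(1 / 3) : ℝ)) ^ n with hq0
  have hq0n : 0 ≤ q0 := by positivity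
  have h3 : ∏ i, cc C j (x i) = q0 * ∏ i, (mm j (x i)) ^ (-(1 / 3) : ℝ) := by
    unfold cc
    rw [Finset.prod_mul_distrib, Finset.prod_const, Finset.card_univ, Fintype.card_fin]
  have hmn : ∀ i, 0 ≤ (mm j (x i)) ^ (-(1 / 3) : ℝ) := by
    intro i
    have := one_le_mm j (x i)
    positivity
  have h4 : (∏ i, (mm j (x i)) ^ (-(1 / 3) : ℝ)) ^ r ≤ ((4 * 2 ^ j) ^ 6) ^ n * ∏ i, gk (x i) := by
    rw [← Finset.prod_pow]
    refine (Finset.prod_le_prod (fun i _ => pow_nonneg (hmn i) r)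
      (fun i _ => mm_pow j (x i) r hr)).trans ?_
    rw [Finset.prod_mul_distrib, Finset.prod_const, Finset.card_univ, Fintype.card_fin]
  have hPn : 0 ≤ (∏ i, (mm j (x i)) ^ (-(1 / 3) : ℝ)) ^ r :=
    pow_nonneg (Finset.prod_nonneg fun i _ => hmn i) r
  have h5 : (8 * (2 ^ j) ^ 3 * q0 * (Real.exp 1 / r)) ^ r ≤ Real.exp (-r) := by
    have h6 : 8 * (2 ^ j) ^ 3 * q0 * (Real.exp 1 / r) ≤ Real.exp (-1) := by
      rw [← mul_div_assoc, div_le_iff₀ hr0]
      have e : Real.exp (-1) * (Real.exp 2 * (8 * (2 ^ j) ^ 3 * q0)) =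
          8 * (2 ^ j) ^ 3 * q0 * Real.exp 1 := by
        rw [← mul_assoc, ← Real.exp_add]; norm_num; ring
      rw [← e]
      exact mul_le_mul_of_nonneg_left hr2 (Real.exp_pos _).le
    refine (pow_le_pow_left₀ (by positivity) h6 r).trans (le_of_eq ?_)
    rw [← Real.exp_nat_mul]
    congr 1
    ring
  rw [h3, mul_pow]
  calc ((8 * (2 ^ j) ^ 3 : ℕ) : ℝ) ^ r / r.factorial *
        (q0 ^ r * (∏ i, (mm j (x i)) ^ (-(1 / 3) : ℝ)) ^ r)
      = (((8 * (2 ^ j) ^ 3 : ℕ) : ℝ) ^ r * q0 ^ r * (1 / r.factorial)) *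
        (∏ i, (mm j (x i)) ^ (-(1 / 3) : ℝ)) ^ r := by ring
    _ ≤ (((8 * (2 ^ j) ^ 3 : ℕ) : ℝ) ^ r * q0 ^ r * (Real.exp 1 / r) ^ r) *
        (∏ i, (mm j (x i)) ^ (-(1 / 3) : ℝ)) ^ r := by
        apply mul_le_mul_of_nonneg_right _ hPn
        exact mul_le_mul_of_nonneg_left h2 (by positivity)
    _ = (8 * (2 ^ j) ^ 3 * q0 * (Real.exp 1 / r)) ^ r *
        (∏ i, (mm j (x i)) ^ (-(1 / 3) : ℝ)) ^ r := by
        rw [mul_pow, mul_pow]; push_cast; ring
    _ ≤ Real.exp (-r) * (((4 * 2 ^ j) ^ 6) ^ n * ∏ i, gk (x i)) :=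
        mul_le_mul h5 h4 hPn (Real.exp_pos _).le


/-! ### Summability -/

theorem tsum_pi_prod {α : Type*} (g : α → ℝ≥0∞) (n : ℕ) :
    ∑' x : Fin n → α, ∏ i, g (x i) = (∑' a, g a) ^ n := by
  induction n with
  | zero =>
    simp
  | succ n ih =>
    rw [← (Fin.consEquiv (fun _ : Fin (n + 1) => α)).tsum_eq, ENNReal.tsum_prod']
    have e : ∀ (a : α) (y : Fin n → α),
        ∏ i, g ((Fin.consEquiv (fun _ : Fin (n + 1) => α)) (a, y) i) = g a * ∏ i, g (y i) := by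
      intro a y
      rw [Fin.prod_univ_succ]
      rfl
    simp_rw [e, ENNReal.tsum_mul_left, ih, ENNReal.tsum_mul_right]
    rw [pow_succ]
    ring

theorem summable_int : Summable (fun m : ℤ => ((max 1 (m.natAbs : ℝ)) ^ 2)⁻¹) := by
  have h1 : Summable (fun m : ℤ => 1 / (m : ℝ) ^ 2) := Real.summable_one_div_int_pow.2 (by norm_num)
  have h2 : Summable (fun m : ℤ => if m = 0 then (1 : ℝ) else 0) := by
    apply summable_of_ne_finset_zero (s := {0})
    intro b hb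
    rw [Finset.mem_singleton] at hb
    rw [if_neg hb]
  refine Summable.of_nonneg_of_le (fun m => by positivity) (fun m => ?_) (h1.add h2)
  by_cases hm : m = 0
  · subst hm; simp
  · rw [if_neg hm, add_zero]
    have h3 : (1 : ℝ) ≤ (m.natAbs : ℝ) := by
      have : 1 ≤ m.natAbs := by omega
      exact_mod_cast this
    rw [max_eq_right h3]
    have h4 : ((m.natAbs : ℝ)) ^ 2 = (m : ℝ) ^ 2 := by
      rw [Nat.cast_natAbs, Int.cast_abs, sq_abs]
    rw [h4, one_div]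

theorem gk_le (k : K) : gk k ≤ ∏ i, ((max 1 ((k i).natAbs : ℝ)) ^ 2)⁻¹ := by
  have h : ∀ i, max 1 ((k i).natAbs : ℝ) ≤ max 1 (sz k : ℝ) := by
    intro i
    apply max_le_max le_rfl
    exact_mod_cast natAbs_le_sz k i
  unfold gk
  rw [Finset.prod_inv_distrib]
  apply inv_anti₀
  · apply Finset.prod_pos
    intro i _
    positivity
  · rw [show (max 1 (sz k : ℝ)) ^ 6 = ∏ _i : Fin 3, (max 1 (sz k : ℝ)) ^ 2 by
      rw [Finset.prod_const, Finset.card_univ, Fintype.card_fin]; ring]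
    apply Finset.prod_le_prod
    · intro i _; positivity
    · intro i _
      exact pow_le_pow_left₀ (by positivity) (h i) 2

theorem gk_nonneg (k : K) : 0 ≤ gk k := by unfold gk; positivity

theorem tsum_gk : ∑' k, ENNReal.ofReal (gk k) ≠ ⊤ := by
  have h1 : ∑' k, ENNReal.ofReal (gk k) ≤
      ∑' k : K, ∏ i, ENNReal.ofReal (((max 1 ((k i).natAbs : ℝ)) ^ 2)⁻¹) := by
    apply ENNReal.tsum_le_tsum
    intro k
    rw [← ENNReal.ofReal_prod_of_nonneg (fun i _ => by positivity)]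
    exact ENNReal.ofReal_le_ofReal (gk_le k)
  rw [tsum_pi_prod (fun m : ℤ => ENNReal.ofReal (((max 1 (m.natAbs : ℝ)) ^ 2)⁻¹)) 3] at h1
  refine ne_top_of_le_ne_top ?_ h1
  apply ENNReal.pow_ne_top
  rw [← ENNReal.ofReal_tsum_of_nonneg (fun m => by positivity) summable_int]
  exact ENNReal.ofReal_ne_top

theorem aj_le (n j : ℕ) : Real.exp (-(2 ^ j)) * ((4 * 2 ^ j) ^ 6) ^ n ≤
    (4 ^ (6 * n) * ((6 * n + 1).factorial : ℝ)) * (1 / 2) ^ j := by
  have hN : (0 : ℝ) < 2 ^ j := by positivity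
  have h1 := Real.pow_div_factorial_le_exp ((2 : ℝ) ^ j) hN.le (6 * n + 1)
  rw [div_le_iff₀ (by positivity)] at h1
  rw [Real.exp_neg, one_div, inv_pow]
  have h2 : (0 : ℝ) < Real.exp (2 ^ j) := Real.exp_pos _
  rw [inv_mul_le_iff₀ h2, ← pow_mul, mul_pow]
  rw [show Real.exp (2 ^ j) * (4 ^ (6 * n) * ((6 * n + 1).factorial : ℝ) * ((2 : ℝ) ^ j)⁻¹) =
    (4 ^ (6 * n)) * ((Real.exp (2 ^ j) * ((6 * n + 1).factorial : ℝ)) * ((2 : ℝ) ^ j)⁻¹) by ring]
  apply mul_le_mul_of_nonneg_left _ (by positivity)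
  rw [← div_eq_mul_inv, le_div_iff₀ hN, ← pow_succ]
  exact h1

theorem tsum_aj (n : ℕ) :
    ∑' j : ℕ, ENNReal.ofReal (Real.exp (-(2 ^ j)) * ((4 * 2 ^ j) ^ 6) ^ n) ≠ ⊤ := by
  have hs : Summable (fun j : ℕ => (4 ^ (6 * n) * ((6 * n + 1).factorial : ℝ)) * (1 / 2) ^ j) :=
    (summable_geometric_of_lt_one (by norm_num) (by norm_num)).mul_left _
  have hs2 : Summable (fun j : ℕ => Real.exp (-(2 ^ j)) * ((4 * 2 ^ j) ^ 6) ^ n) :=
    Summable.of_nonneg_of_le (fun j => by positivity) (fun j => aj_le n j) hs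
  rw [← ENNReal.ofReal_tsum_of_nonneg (fun j => by positivity) hs2]
  exact ENNReal.ofReal_ne_top

/-- the expected order of the count -/
noncomputable def BB (n j : ℕ) : ℝ := ((2 : ℝ) ^ j) ^ (3 - n / 3 : ℝ)

theorem BB_ge (n j : ℕ) (hn : n ≤ 6) : (2 : ℝ) ^ j ≤ BB n j := by
  have hj : (1 : ℝ) ≤ 2 ^ j := one_le_pow₀ (by norm_num)
  have hn' : (n : ℝ) ≤ 6 := by exact_mod_cast hn
  have := Real.rpow_le_rpow_of_exponent_le hj (show (1 : ℝ) ≤ 3 - n / 3 by linarith)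
  rw [Real.rpow_one] at this
  exact this

theorem BB_eq (n j : ℕ) : ((2 : ℝ) ^ j) ^ 3 * (((2 : ℝ) ^ j) ^ (-(1 / 3) : ℝ)) ^ n = BB n j := by
  have hj : (0 : ℝ) < 2 ^ j := by positivity
  unfold BB
  generalize (2 : ℝ) ^ j = N at hj ⊢
  rw [← Real.rpow_natCast, ← Real.rpow_natCast, ← Real.rpow_mul hj.le, ← Real.rpow_add hj]
  congr 1
  push_cast
  ring

/-- the bad event -/
def bad {Ω : Type*} (Q : Ω → Set K) (n : ℕ) (r : ℕ → ℕ) (p : ℕ × (Fin n → K)) : Set Ω :=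
  {ω | Function.Injective p.2 ∧ n ^ 2 + (2 * n ^ 2) * r p.1 ≤ cnt (Q ω) p.1 p.2}

theorem exists_bound {ι : Type*} (S : Set ι) (hS : S.Finite) (f : ι → ℕ) :
    ∃ A : ℝ, 0 ≤ A ∧ ∀ p ∈ S, (f p : ℝ) ≤ A := by
  classical
  refine ⟨∑ p ∈ hS.toFinset, (f p : ℝ), Finset.sum_nonneg fun p _ => Nat.cast_nonneg _, ?_⟩
  intro p hp
  exact Finset.single_le_sum (f := fun p => (f p : ℝ)) (fun p _ => Nat.cast_nonneg _)
    (hS.mem_toFinset.2 hp)

theorem key {Ω : Type*} [MeasurableSpace Ω] (μ : Measure Ω) (Q : Ω → Set K) {C C0 : ℝ}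
    (hC : 1 ≤ C) (hC0 : C0 ≤ C)
    (hQ : ∀ S : Finset K, (∀ k ∈ S, -k ∉ S) → μ {ω | ∀ k ∈ S, k ∈ Q ω}
      ≤ ∏ k ∈ S, ENNReal.ofReal (C0 * (sz k : ℝ) ^ (-(1 / 3) : ℝ)))
    (n : ℕ) (hn : 1 ≤ n) (hn6 : n ≤ 6) :
    ∀ᵐ ω ∂μ, ∃ A : ℝ, 0 ≤ A ∧ ∀ (j : ℕ) (x : Fin n → K), Function.Injective x →
      (cnt (Q ω) j x : ℝ) ≤ A * BB n j := by
  classical
  set E : ℝ := Real.exp 2 * 8 * C ^ n with hE
  have hE1 : 1 ≤ E := by
    have h1 : (1 : ℝ) ≤ Real.exp 2 := Real.one_le_exp (by norm_num)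
    have h2 : (1 : ℝ) ≤ C ^ n := one_le_pow₀ hC
    nlinarith
  set r : ℕ → ℕ := fun j => ⌈18 + E * BB n j⌉₊ with hr
  have hBB : ∀ j, (1 : ℝ) ≤ BB n j := fun j =>
    le_trans (one_le_pow₀ (by norm_num)) (BB_ge n j hn6)
  have hr1 : ∀ j, 18 + E * BB n j ≤ r j := fun j => Nat.le_ceil _
  have hr2 : ∀ j, (r j : ℝ) ≤ 19 + E * BB n j := by
    intro j
    have := (Nat.ceil_lt_add_one (show (0 : ℝ) ≤ 18 + E * BB n j by
      have := hBB j; positivity)).le
    calc (r j : ℝ) ≤ 18 + E * BB n j + 1 := this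
      _ = _ := by ring
  have hr18 : ∀ j, 18 ≤ r j := by
    intro j
    have h1 := hr1 j
    have h2 : 0 ≤ E * BB n j := by
      have := hBB j; positivity
    have : (18 : ℝ) ≤ (r j : ℝ) := by linarith
    exact_mod_cast this
  have hbound : ∀ p, μ (bad Q n r p) ≤
      ENNReal.ofReal (Real.exp (-(2 ^ p.1)) * ((4 * 2 ^ p.1) ^ 6) ^ n) *
        ∏ i, ENNReal.ofReal (gk (p.2 i)) := by
    rintro ⟨j, x⟩
    by_cases hx : Function.Injective x
    · have hset : bad Q n r (j, x) ⊆ {ω | n ^ 2 + (2 * n ^ 2) * r j ≤ cnt (Q ω) j x} :=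
        fun ω hω => hω.2
      refine (measure_mono hset).trans ?_
      refine (claimC μ Q hC hC0 hQ j hn x hx (r j)).trans ?_
      rw [← ENNReal.ofReal_prod_of_nonneg (fun i _ => gk_nonneg _),
        ← ENNReal.ofReal_mul (by positivity)]
      apply ENNReal.ofReal_le_ofReal
      refine (claimD hC j x (r j) (hr18 j) ?_).trans ?_
      · have e : Real.exp 2 * (8 * (2 ^ j) ^ 3 * (C * ((2 : ℝ) ^ j) ^ (-(1 / 3) : ℝ)) ^ n) =
            E * BB n j := by
          rw [← BB_eq, mul_pow, hE]; ring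
        rw [e]
        have := hr1 j
        linarith
      · have h1 : Real.exp (-(r j : ℝ)) ≤ Real.exp (-(2 ^ j)) := by
          apply Real.exp_le_exp.2
          have h2 := hr1 j
          have h3 := BB_ge n j hn6
          have h4 := hBB j
          nlinarith
        have h5 : 0 ≤ ((4 * (2 : ℝ) ^ j) ^ 6) ^ n * ∏ i, gk (x i) :=
          mul_nonneg (by positivity) (Finset.prod_nonneg fun i _ => gk_nonneg _)
        calc Real.exp (-(r j : ℝ)) * (((4 * 2 ^ j) ^ 6) ^ n * ∏ i, gk (x i))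
            ≤ Real.exp (-(2 ^ j)) * (((4 * 2 ^ j) ^ 6) ^ n * ∏ i, gk (x i)) :=
              mul_le_mul_of_nonneg_right h1 h5
          _ = _ := by ring
    · have hset : bad Q n r (j, x) = ∅ := by
        ext ω
        constructor
        · intro h; exact absurd h.1 hx
        · intro h; exact absurd h (Set.notMem_empty _)
      rw [hset, measure_empty]
      exact zero_le
  have hsum : ∑' p, μ (bad Q n r p) ≠ ⊤ := by
    refine ne_top_of_le_ne_top ?_ (ENNReal.tsum_le_tsum hbound)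
    rw [ENNReal.tsum_prod']
    simp_rw [ENNReal.tsum_mul_left, tsum_pi_prod (fun k => ENNReal.ofReal (gk k)) n,
      ENNReal.tsum_mul_right]
    exact ENNReal.mul_ne_top (tsum_aj n) (ENNReal.pow_ne_top tsum_gk)
  filter_upwards [ae_finite_setOfPred_mem hsum] with ω hω
  obtain ⟨A1, hA1n, hA1⟩ := exists_bound _ hω (fun p => cnt (Q ω) p.1 p.2)
  set A0 : ℝ := (n ^ 2 : ℕ) + (2 * n ^ 2 : ℕ) * (19 + E) with hA0
  have hA0n : 0 ≤ A0 := by positivity
  refine ⟨A0 + A1, by linarith, fun j x hx => ?_⟩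
  have hB := hBB j
  by_cases h : n ^ 2 + (2 * n ^ 2) * r j ≤ cnt (Q ω) j x
  · have h1 : (cnt (Q ω) j x : ℝ) ≤ A1 := hA1 (j, x) ⟨hx, h⟩
    nlinarith
  · have h1 : (cnt (Q ω) j x : ℝ) ≤ ((n ^ 2 + (2 * n ^ 2) * r j : ℕ) : ℝ) := by
      exact_mod_cast (not_le.1 h).le
    refine h1.trans ?_
    have h2 := hr2 j
    have h3 : (r j : ℝ) ≤ (19 + E) * BB n j := by nlinarith
    have h4 : (0 : ℝ) ≤ ((2 * n ^ 2 : ℕ) : ℝ) := Nat.cast_nonneg _
    have h5 : (0 : ℝ) ≤ ((n ^ 2 : ℕ) : ℝ) := Nat.cast_nonneg _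
    calc ((n ^ 2 + (2 * n ^ 2) * r j : ℕ) : ℝ)
        = ((n ^ 2 : ℕ) : ℝ) + ((2 * n ^ 2 : ℕ) : ℝ) * (r j : ℝ) := by push_cast; ring
      _ ≤ ((n ^ 2 : ℕ) : ℝ) * BB n j + ((2 * n ^ 2 : ℕ) : ℝ) * ((19 + E) * BB n j) := by
          apply add_le_add
          · exact le_mul_of_one_le_right h5 hB
          · exact mul_le_mul_of_nonneg_left h3 h4
      _ = A0 * BB n j := by rw [hA0]; ring
      _ ≤ (A0 + A1) * BB n j := by nlinarith

theorem BB_mul (j : ℕ) : BB 4 j * BB 2 j = 16 ^ j := by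
  have hj : (0 : ℝ) < 2 ^ j := by positivity
  unfold BB
  rw [← Real.rpow_add hj]
  norm_num
  rw [← pow_mul, mul_comm, pow_mul]
  norm_num

universe u

theorem t_prob : St_prob.{u} := by
  intro Ω _ μ _ Q C0 _ _ hQ
  have h4 := key μ Q (le_max_left 1 C0) (le_max_right 1 C0) hQ 4 (by norm_num) (by norm_num)
  have h2 := key μ Q (le_max_left 1 C0) (le_max_right 1 C0) hQ 2 (by norm_num) (by norm_num)
  filter_upwards [h4, h2] with ω hω4 hω2
  obtain ⟨A4, hA4, h4⟩ := hω4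
  obtain ⟨A2, hA2, h2⟩ := hω2
  refine ⟨max 1 (A4 * A2), le_max_left _ _, ?_⟩
  intro j x hx y z hyz
  have hinj : Function.Injective ![y, z] := by
    have hne : y ≠ z := by
      intro h
      rw [h, sub_self] at hyz
      have : x 1 = x 0 := (sub_eq_zero.1 hyz.symm)
      have := hx this
      exact absurd this (by decide)
    intro a b hab
    fin_cases a <;> fin_cases b <;> simp_all
  have e1 := h4 j x hx
  have e2 := h2 j ![y, z] hinj
  have hB4 : (0 : ℝ) ≤ BB 4 j := by unfold BB; positivity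
  have hB2 : (0 : ℝ) ≤ BB 2 j := by unfold BB; positivity
  have h16 : (0 : ℝ) ≤ 16 ^ j := by positivity
  calc (cnt (Q ω) j x : ℝ) * cnt (Q ω) j ![y, z] ≤ (A4 * BB 4 j) * (A2 * BB 2 j) :=
        mul_le_mul e1 e2 (Nat.cast_nonneg _) (mul_nonneg hA4 hB4)
    _ = (A4 * A2) * (BB 4 j * BB 2 j) := by ring
    _ = (A4 * A2) * 16 ^ j := by rw [BB_mul]
    _ ≤ (max 1 (A4 * A2)) ^ 2 * 16 ^ j := by
        apply mul_le_mul_of_nonneg_right _ h16
        have h1 : 1 ≤ max 1 (A4 * A2) := le_max_left _ _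
        have h3 : A4 * A2 ≤ max 1 (A4 * A2) := le_max_right _ _
        nlinarith

end Pool.Agent.Y474.NS
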